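import Pool.Agent.Work.MP_b44cb1_al.Full.Blocks
import Pool.Agent.Work.MP_b44cb1_al.Full.HH3.Final

/-!
# Final : the main theorem
-/

set_option autoImplicit false

namespace Pool.Agent.Work.MP_b44cb1_al

theorem hh_all (r : ℕ) : HHm r := by
  intro P0 n hn
  obtain ⟨N, hN⟩ := HH3.hh_final r P0 n hn
  exact ⟨N, fun G _ _ s hs hrs hlaw hne => hN G hs s hrs hlaw hne⟩

theorem stF_exists (r : ℕ) : ∃ N, StF r N := stF_of_hh (fun r _ => hh_all r) r

end Pool.Agent.Work.MP_b44cb1_al
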