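import Pool.Agent.Work.MP_b44cb1_al.Kit

/-!
# MP_b44cb1_al, the general theorem (frozen S02775) : definitions of the tower part (fixed)

Plan: `/team-store/b44cb1_full22.md`. All towers live in an ambient finite group `G`; layers are
subgroups `P i`, everything is stated with elements and subgroups of `G` (no quotient types).
`V_i` denotes `P i / Fr (p i) (P i)`, an elementary abelian group, on which `Gs P i` acts.
-/

set_option autoImplicit false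

namespace Pool.Agent.Work.MP_b44cb1_al

open Subgroup
open scoped commutatorElement

variable {G : Type*} [Group G]

/-- The Frattini subgroup `[P,P] P^p` of a `p`-subgroup `P` of `G`. -/
def Fr (p : ℕ) (P : Subgroup G) : Subgroup G :=
  ⁅P, P⁆ ⊔ Subgroup.closure ((fun x : G => x ^ p) '' (P : Set G))

/-- `E_0 = P_0`, `E_(i+1) = [P_(i+1), E_i]`. -/
def Ech (P : ℕ → Subgroup G) : ℕ → Subgroup G
  | 0 => P 0
  | (i + 1) => ⁅P (i + 1), Ech P i⁆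

/-- Weak towers with `n` layers (usually together with `Ech P (n-1) ≠ ⊥`). -/
structure WTow (P : ℕ → Subgroup G) (p : ℕ → ℕ) (n : ℕ) : Prop where
  prime : ∀ i < n, (p i).Prime
  pgrp : ∀ i < n, IsPGroup (p i) (P i)
  norm : ∀ i < n, Nz (Gs P i) (P i)
  cop : ∀ i < n, ¬ p i ∣ Nat.card (Gs P i)

/-- `K_i = C_{P_i}(P_(i+1))`. -/
def Kr (P : ℕ → Subgroup G) (i : ℕ) : Subgroup G := P i ⊓ centralizer (P (i + 1) : Set G)

/-- `D_j = C_{Gs j}(P_j)`. -/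
def Dk (P : ℕ → Subgroup G) (j : ℕ) : Subgroup G := Gs P j ⊓ centralizer (P j : Set G)

/-- Minimal towers: `V_i` is irreducible for `Gs P i`, `P_i / K_i` is elementary abelian or special
of exponent `p_i`, and `P_(i-1)` centralises `Fr(P_i) / K_i`. (All odd primes.) -/
structure MTow (P : ℕ → Subgroup G) (p : ℕ → ℕ) (n : ℕ) : Prop extends WTow P p n where
  nontriv : ∀ i < n, P i ≠ ⊥
  comm : ∀ i, i + 1 < n → ⁅P (i + 1), P i⁆ = P (i + 1)
  irr : ∀ i < n, ∀ R : Subgroup G, R ≤ P i → Nz (Gs P i) R → R = P i ∨ R ≤ Fr (p i) (P i)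
  kfr : ∀ i, i + 1 < n → Kr P i ≤ Fr (p i) (P i)
  zfr : ∀ i, 1 ≤ i → i + 1 < n → ⁅Fr (p i) (P i), P (i - 1)⁆ ≤ Kr P i
  cen : ∀ i, 1 ≤ i → i + 1 < n → ⁅Fr (p i) (P i), P i⁆ ≤ Kr P i
  expo : ∀ i, 1 ≤ i → i + 1 < n → ∀ x ∈ P i, x ^ (p i) ∈ Kr P i
  zen : ∀ i, 1 ≤ i → i + 1 < n → ¬ ⁅P i, P i⁆ ≤ Kr P i →
    ∀ x ∈ P i, (∀ y ∈ P i, ⁅x, y⁆ ∈ Kr P i) → x ∈ Fr (p i) (P i)

/-- Layer `i` is extraspecial modulo `K_i` with centre centralised by `Gs P i`. -/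
def XLay (P : ℕ → Subgroup G) (p : ℕ → ℕ) (i : ℕ) : Prop :=
  ¬ ⁅P i, P i⁆ ≤ Kr P i ∧ ⁅Fr (p i) (P i), Gs P i⁆ ≤ Kr P i ∧
    (Kr P i).relIndex (Fr (p i) (P i)) = p i

/-- A link `c → u` of the first kind. `A / K_(u-1)` is an elementary abelian subgroup of
`P_(u-1) / K_(u-1)`, central there and `Gs P u`-invariant, `U` is a hyperplane of it with nontrivial
fixed points on `V_u`, and the stabiliser of `U` in `P_c` is contained in `Fr(P_c)`. -/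
structure HLink (P : ℕ → Subgroup G) (p : ℕ → ℕ) (c u : ℕ) (A U : Subgroup G) : Prop where
  lt : c + 1 < u
  le : A ≤ P (u - 1)
  ker_le : Kr P (u - 1) ≤ U
  nz : Nz (Gs P u) A
  cen : ⁅A, P (u - 1)⁆ ≤ Kr P (u - 1)
  expo : ∀ x ∈ A, x ^ (p (u - 1)) ∈ Kr P (u - 1)
  hyp_le : U ≤ A
  hyp : U.relIndex A = p (u - 1)
  fix : ¬ P u ⊓ centralizer (U : Set G) ≤ Fr (p u) (P u)
  stab : ∀ v ∈ P c, cj v U = U → v ∈ Fr (p c) (P c)

/-- `S.2` is normal in `S.1` with cyclic quotient. -/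
def CycP (S : Subgroup G × Subgroup G) : Prop :=
  S.2 ≤ S.1 ∧ Nz S.1 S.2 ∧ ∃ g ∈ S.1, S.1 ≤ S.2 ⊔ zpowers g

/-- Iterated exponentials. -/
def tow : ℕ → ℕ → ℕ
  | 0, x => x
  | (d + 1), x => 2 ^ tow d x

/-- The interface between the structure of the tower and the extraction: if `N ≤ Gs P c` is
nilpotent, `Q ≤ P c` commutes with `N`, `N × Fr(Q)` satisfies the conditions `S`, then
`[C_{V_u}(N × Fr Q), Q]` has dimension at least `tow t |Q / Fr Q|`. -/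
def LINK (P : ℕ → Subgroup G) (p : ℕ → ℕ) (c u : ℕ) (S : Finset (Subgroup G × Subgroup G))
    (t : ℕ) : Prop :=
  ∀ N Q : Subgroup G, N ≤ Gs P c → Group.IsNilpotent N → Q ≤ P c → Cz N Q →
    Q ⊓ Fr (p c) (P c) ≤ Fr (p c) Q → ¬ Q ≤ Fr (p c) (P c) →
    ((Fr (p c) Q).relIndex Q) ^ 2 <
      (Fr (p c) (P c)).relIndex (P c ⊓ centralizer (N : Set G)) →
    (∀ s ∈ S, (N ⊔ Fr (p c) Q) ⊓ s.1 ≤ s.2) →
    (p u) ^ tow t ((Fr (p c) Q).relIndex Q) ≤
      (Fr (p u) (P u)).relIndex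
        ⁅P u ⊓ centralizer ((N ⊔ Fr (p c) Q : Subgroup G) : Set G), Q⁆

end Pool.Agent.Work.MP_b44cb1_al
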