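import Pool.Agent.Work.MP_b44cb1_al.TDH
import Pool.Agent.Work.MP_b44cb1_al.TMain
import Pool.Agent.Work.MP_b44cb1_al.Full.Defs

/-!
# TDF: properties (TD) and (T) from the induction hypothesis, for all finite soluble groups

`StF r h` is `St r h` without the condition on the Sylow subgroups. The proofs are those of
`tdp_of_st` and `tp_of_tdp`.
-/

set_option autoImplicit false

namespace Pool.Agent.Work.MP_b44cb1_al

open Subgroup
open scoped commutatorElement

/-- The statement to be proved by induction on `r` (with a suitable `h`), all soluble groups. -/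
def StF (r h : ℕ) : Prop :=
  ∀ (G : Type) [Group G] [Finite G], Group.IsSolvable G → (∃ s, r < s ∧ Law r s G) →
    res^[h] (⊤ : Subgroup G) = ⊥

theorem tdp_of_stF {r s h : ℕ} (hr : 1 ≤ r) (hrs : r < s) (hst : StF (r - 1) h)
    (G : Type) [Group G] [Finite G] (hs : Group.IsSolvable G) (hlaw : Law r s G) :
    TDp h G := by
  intro D L k hDL hn hk
  set S : Subgroup G := (cj k⁻¹ D ⊔ D) ⊓ (cj k D ⊔ D) with hS
  have hk' : cj k⁻¹ L = L := by
    conv_lhs => rw [← hk]
    exact cj_inv_cj k L
  have hDS : D ≤ S := le_inf le_sup_right le_sup_right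
  have hSL : S ≤ L := by
    refine inf_le_right.trans (sup_le ?_ hDL)
    calc cj k D ≤ cj k L := cj_mono hDL
      _ = L := hk
  have hN : (D.subgroupOf S).Normal := (hn.mono hSL).subgroupOf_normal
  refine resI_section D S hDS h ?_
  refine hst (S ⧸ D.subgroupOf S) ?_ ⟨s - 1, by omega, ?_⟩
  · have := hs
    infer_instance
  · intro x y
    obtain ⟨u, rfl⟩ := QuotientGroup.mk'_surjective (D.subgroupOf S) x
    obtain ⟨b, rfl⟩ := QuotientGroup.mk'_surjective (D.subgroupOf S) y
    rw [← map_phi_iter, ← map_phi_iter]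
    simp only [QuotientGroup.mk'_apply]
    rw [QuotientGroup.eq, mem_subgroupOf]
    have h1 := td_law hr hrs hlaw D L k hDL hn hk u b u.2.1 b.2.2
    have h2 : ∀ n, (((phi b)^[n] u : S) : G) = (phi (b : G))^[n] (u : G) := by
      intro n
      exact map_phi_iter S.subtype u b n
    push_cast
    rw [h2, h2]
    exact h1

theorem tp_of_stF {r s h : ℕ} (hr : 1 ≤ r) (hrs : r < s) (hst : StF (r - 1) h)
    (G : Type) [Group G] [Finite G] (hs : Group.IsSolvable G) (hlaw : Law r s G) :
    Tp h G :=
  tp_of_tdp (tdp_of_stF hr hrs hst G hs hlaw)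

end Pool.Agent.Work.MP_b44cb1_al
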