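import Pool.Agent.Work.MP_b44cb1_al.Full.Ty.Dich
import Pool.Agent.Work.MP_b44cb1_al.Full.TDF
import Pool.Agent.Work.MP_b44cb1_al.Zel.ClassBound

/-!
# Assembly : the induction step from the blocks (HH, KIT, L, R1, R2, EXT as hypotheses)
-/

set_option autoImplicit false

namespace Pool.Agent.Work.MP_b44cb1_al

open Subgroup
open scoped commutatorElement

/-- Block HH. -/
def HHm (r : ℕ) : Prop :=
  ∀ P0 n : ℕ, 1 ≤ n → ∃ N : ℕ, ∀ (G : Type) [Group G] [Finite G] (s : ℕ), Group.IsSolvable G →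
    r < s → Law r s G → res^[N] (⊤ : Subgroup G) ≠ ⊥ →
    ∃ (H : Type) (_ : Group H) (_ : Finite H), Group.IsSolvable H ∧ Law r s H ∧
      ∃ (P : ℕ → Subgroup H) (p : ℕ → ℕ), WTow P p n ∧ (∀ i < n, P0 < p i ∧ p i ≠ 2) ∧
        Ech P (n - 1) ≠ ⊥

/-- Block EXT. -/
def Extm (r c0 : ℕ) : Prop :=
  ∃ t m : ℕ, ∀ (G : Type) [Group G] [Finite G] (s : ℕ), Group.IsSolvable G → r < s → Law r s G →
    ∀ (P : ℕ → Subgroup G) (p : ℕ → ℕ) (n : ℕ), WTow P p n → (∀ i < n, c0 < p i ∧ 2 < p i) →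
      (∀ i < n, lcs (P i) c0 = ⊥) → ∀ (c : ℕ → ℕ) (S : ℕ → Finset (Subgroup G × Subgroup G)),
        (∀ j < m, c j < c (j + 1)) → c m < n → (∀ j < m, (S j).card ≤ t + 6) →
        (∀ j < m, ∀ x ∈ S j, CycP x) → (∀ j < m, LINK P p (c j) (c (j + 1)) (S j) t) →
        (p (c 0)) ^ tow t 1 ≤ (Fr (p (c 0)) (P (c 0))).relIndex (P (c 0)) → False

/-- Blocks R1 (link and dimension). -/
def R1m (G : Type*) [Group G] : Prop :=
  ∀ (P : ℕ → Subgroup G) (p : ℕ → ℕ) (n : ℕ), MTow P p n → (∀ i < n, 2 < p i) →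
    ∀ (t : ℕ) (u : ℕ → ℕ) (A U : ℕ → Subgroup G),
      (u (t + 5) < n → (∀ k ≤ t + 4, HLink P p (u k) (u (k + 1)) (A k) (U k)) →
        ∃ S : Finset (Subgroup G × Subgroup G), S.card ≤ t + 5 ∧ (∀ s ∈ S, CycP s) ∧
          LINK P p (u 0) (u (t + 5)) S t) ∧
      (u t < n → (∀ k < t, HLink P p (u k) (u (k + 1)) (A k) (U k)) →
        (p (u t)) ^ tow t 1 ≤ (Fr (p (u t)) (P (u t))).relIndex (P (u t)))

/-- Block R2 (link and dimension), `T t` layers. -/
def R2m (T : ℕ → ℕ) (G : Type*) [Group G] : Prop :=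
  ∀ (P : ℕ → Subgroup G) (p : ℕ → ℕ) (n : ℕ), MTow P p n → (∀ i < n, 11 ≤ p i) →
    ∀ t c : ℕ, 1 ≤ c → c + T t < n → (∀ i, c ≤ i → i < c + T t → XLay P p i) →
      (∃ S : Finset (Subgroup G × Subgroup G), S.card ≤ 1 ∧ (∀ s ∈ S, CycP s) ∧
        LINK P p c (c + T t) S t) ∧
      (p (c + T t)) ^ tow t 1 ≤ (Fr (p (c + T t)) (P (c + T t))).relIndex (P (c + T t))

theorem lcs_type {G : Type*} [Group G] (P : Subgroup G) (n : ℕ) :
    lcs P n = (Subgroup.lowerCentralSeries (⊤ : Subgroup P) n).map P.subtype := by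
  induction n with
  | zero =>
    show P = map P.subtype ⊤
    rw [← MonoidHom.range_eq_map, Subgroup.range_subtype]
  | succ n ih =>
    rw [lcs_succ, ih, Subgroup.lowerCentralSeries_succ, map_commutator]
    simp [← MonoidHom.range_eq_map]

/-- In a finite group with the law, `p`-subgroups are `r`-Engel. -/
theorem engel_of_law {G : Type*} [Group G] [Finite G] {r s p : ℕ} (hrs : r < s) (h : Law r s G)
    {P : Subgroup G} (hp : p.Prime) (hP : IsPGroup p P) (x y : P) : (phi y)^[r] x = 1 := by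
  have : Fact p.Prime := ⟨hp⟩
  have hnil : Group.IsNilpotent P := hP.isNilpotent
  have hlaw := law_sub h P
  have hper : ∀ k : ℕ, (phi y)^[r + k * (s - r)] x = (phi y)^[r] x := by
    intro k
    induction k with
    | zero => simp
    | succ k ih =>
      have e : r + (k + 1) * (s - r) = k * (s - r) + s := by
        have : (k + 1) * (s - r) = k * (s - r) + (s - r) := by ring
        omega
      rw [e, Function.iterate_add_apply, ← hlaw x y, ← Function.iterate_add_apply]
      rw [add_comm]; exact ih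
  obtain ⟨N, hN⟩ := (Subgroup.nilpotent_iff_lowerCentralSeries (G := P)).1 hnil
  have hmem : ∀ k : ℕ, (phi y)^[k] x ∈ Subgroup.lowerCentralSeries (⊤ : Subgroup P) k := by
    intro k
    induction k with
    | zero => exact mem_top _
    | succ k ih =>
      rw [Function.iterate_succ_apply', Subgroup.lowerCentralSeries_succ]
      have := commutator_mem_commutator (inv_mem ih) (mem_top (y⁻¹ : P))
      simpa [commutatorElement_def, phi, mul_assoc] using this
  have h1 := hmem (r + N * (s - r))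
  rw [hper N] at h1
  have h2 : Subgroup.lowerCentralSeries (⊤ : Subgroup P) (r + N * (s - r)) ≤
      Subgroup.lowerCentralSeries (⊤ : Subgroup P) N := by
    apply Subgroup.lowerCentralSeries_antitone
    have : N * 1 ≤ N * (s - r) := Nat.mul_le_mul_left _ (by omega)
    omega
  have h3 := h2 h1
  rw [hN] at h3
  exact h3

theorem stF_step {r h : ℕ} (hr : 1 ≤ r) (hst : StF (r - 1) h) (hHH : HHm r)
    (hExt : ∀ c0, Extm r c0) {T : ℕ → ℕ} (hTpos : ∀ t, 1 ≤ T t)
    (kit : ∀ (G : Type) [Group G] [Finite G], K4p G ∧ K5p G ∧ K6p G ∧ K7p G)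
    (hL : ∀ (G : Type) [Group G] [Finite G], Group.IsSolvable G → Tp h G → LemLp h G)
    (hR1 : ∀ (G : Type) [Group G] [Finite G], R1m G)
    (hR2 : ∀ (G : Type) [Group G] [Finite G], R2m T G) : ∃ N, StF r N := by
  obtain ⟨c1, p0, hcl⟩ := Zel60.class_bound r
  obtain ⟨t, m, hE⟩ := hExt c1
  obtain ⟨n0, hD⟩ := dich h (t + m * (t + 5)) (T t + m * T t)
  obtain ⟨N, hN⟩ := hHH (max (max c1 p0) 11) (n0 + 1) (by omega)
  refine ⟨N, ?_⟩
  intro G _ _ hsol ⟨s, hrs, hlaw⟩
  by_contra hne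
  obtain ⟨H, _, _, hsolH, hlawH, P, p, hW, hp, hc⟩ := hN G s hsol hrs hlaw hne
  obtain ⟨h4, h5, h6, h7⟩ := kit H
  have hTp : Tp h H := tp_of_stF hr hrs hst H hsolH hlawH
  obtain ⟨Q, q, n', M, hlay, hcase⟩ := hD H h4 h5 h6 h7 (hL H hsolH hTp) P p (n0 + 1) (by omega)
    hW (fun i hi => by have := (hp i hi).1; omega) hc
  have hq : ∀ i < n', c1 < q i ∧ p0 < q i ∧ 11 ≤ q i ∧ 2 < q i := by
    intro i hi
    obtain ⟨j, hj, -, hqj⟩ := hlay i hi
    have := (hp j hj).1
    rw [hqj]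
    omega
  have hclass : ∀ i < n', lcs (Q i) c1 = ⊥ := by
    intro i hi
    have hPG : IsPGroup (q i) (Q i) := M.pgrp i hi
    have := hcl (q i) (Q i) (M.prime i hi) (hq i hi).2.1 hPG
      (fun x y => engel_of_law hrs hlawH (M.prime i hi) hPG x y)
    rw [lcs_type, this, Subgroup.map_bot]
  rcases hcase with ⟨u, A, U, hu, hlk⟩ | ⟨c, hc1, hcn, hX⟩
  · -- first kind
    have hlt : ∀ a b, a ≤ b → b ≤ t + m * (t + 5) → u a ≤ u b := by
      intro a b hab
      induction b, hab using Nat.le_induction with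
      | base => intro _; exact le_rfl
      | succ b hb ih =>
        intro hb'
        have := (hlk b (by omega)).lt
        exact (ih (by omega)).trans (by omega)
    have hsm : ∀ j < m, t + j * (t + 5) + (t + 5) ≤ t + m * (t + 5) := by
      intro j hj
      have : (j + 1) * (t + 5) ≤ m * (t + 5) := Nat.mul_le_mul_right _ (by omega)
      have e : (j + 1) * (t + 5) = j * (t + 5) + (t + 5) := by ring
      omega
    have hlink : ∀ j < m, ∃ S : Finset (Subgroup H × Subgroup H), S.card ≤ t + 5 ∧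
        (∀ s ∈ S, CycP s) ∧
          LINK Q q (u (t + j * (t + 5))) (u (t + (j + 1) * (t + 5))) S t := by
      intro j hj
      have h1 := hsm j hj
      obtain ⟨S, hS1, hS2, hS3⟩ := ((hR1 H) Q q n' M (fun i hi => (hq i hi).2.2.2) t
        (fun k => u (t + j * (t + 5) + k)) (fun k => A (t + j * (t + 5) + k))
        (fun k => U (t + j * (t + 5) + k))).1
        (lt_of_le_of_lt (hlt _ _ h1 le_rfl) hu)
        (fun k hk => hlk (t + j * (t + 5) + k) (by omega))
      have e : t + (j + 1) * (t + 5) = t + j * (t + 5) + (t + 5) := by ring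
      rw [e]
      exact ⟨S, hS1, hS2, hS3⟩
    classical
    choose! S hS1 hS2 hS3 using hlink
    refine hE H s hsolH hrs hlawH Q q n' M.toWTow (fun i hi => ⟨(hq i hi).1, (hq i hi).2.2.2⟩)
      hclass (fun j => u (t + j * (t + 5))) S ?_ hu ?_ hS2 hS3 ?_
    · intro j hj
      have h1 := hsm j hj
      have h2 := (hlk (t + j * (t + 5)) (by omega)).lt
      have h3 := hlt (t + j * (t + 5) + 1) (t + (j + 1) * (t + 5)) (by
        have e : t + (j + 1) * (t + 5) = t + j * (t + 5) + (t + 5) := by ring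
        omega) (by
        have e : t + (j + 1) * (t + 5) = t + j * (t + 5) + (t + 5) := by ring
        omega)
      show u (t + j * (t + 5)) < u (t + (j + 1) * (t + 5))
      omega
    · intro j hj
      exact (hS1 j hj).trans (by omega)
    · have h1 := ((hR1 H) Q q n' M (fun i hi => (hq i hi).2.2.2) t u A U).2
        (lt_of_le_of_lt (hlt _ _ (by omega) le_rfl) hu) (fun k hk => hlk k (by omega))
      simpa using h1
  · -- second kind
    have hT := hTpos t
    have hlink : ∀ j < m, ∃ S : Finset (Subgroup H × Subgroup H), S.card ≤ 1 ∧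
        (∀ s ∈ S, CycP s) ∧
          LINK Q q (c + (j + 1) * T t) (c + (j + 1 + 1) * T t) S t := by
      intro j hj
      have h1 : (j + 2) * T t ≤ (m + 1) * T t := Nat.mul_le_mul_right _ (by omega)
      have e1 : (m + 1) * T t = T t + m * T t := by ring
      have e2 : (j + 2) * T t = (j + 1) * T t + T t := by ring
      obtain ⟨⟨S, hS1, hS2, hS3⟩, -⟩ := hR2 H Q q n' M (fun i hi => (hq i hi).2.2.1) t
        (c + (j + 1) * T t) (by omega) (by omega) (fun i hi1 hi2 => hX i (by omega) (by omega))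
      have e : c + (j + 1 + 1) * T t = c + (j + 1) * T t + T t := by ring
      rw [e]
      exact ⟨S, hS1, hS2, hS3⟩
    classical
    choose! S hS1 hS2 hS3 using hlink
    refine hE H s hsolH hrs hlawH Q q n' M.toWTow (fun i hi => ⟨(hq i hi).1, (hq i hi).2.2.2⟩)
      hclass (fun j => c + (j + 1) * T t) S ?_ ?_ ?_ hS2 hS3 ?_
    · intro j hj
      show c + (j + 1) * T t < c + (j + 1 + 1) * T t
      have e : (j + 1 + 1) * T t = (j + 1) * T t + T t := by ring
      omega
    · show c + (m + 1) * T t < n'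
      have e1 : (m + 1) * T t = T t + m * T t := by ring
      omega
    · intro j hj
      exact (hS1 j hj).trans (by omega)
    · have h1 := (hR2 H Q q n' M (fun i hi => (hq i hi).2.2.1) t c hc1 (by omega)
        (fun i hi1 hi2 => hX i hi1 (by omega))).2
      simpa using h1

theorem stF_zero : StF 0 0 := by
  intro G _ _ _ ⟨s, hs, hlaw⟩
  have h1 : ∀ x : G, x = 1 := by
    intro x
    have := hlaw x 1
    obtain ⟨t, rfl⟩ : ∃ t, s = t + 1 := ⟨s - 1, by omega⟩
    rw [Function.iterate_succ_apply] at this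
    have e : phi 1 x = 1 := by simp [phi]
    have e2 : ∀ t, (phi (1 : G))^[t] 1 = 1 := by
      intro t
      induction t with
      | zero => rfl
      | succ t ih => rw [Function.iterate_succ_apply]; simpa [phi] using ih
    rw [e, e2] at this
    simpa using this
  simp only [Function.iterate_zero, id]
  rw [Subgroup.eq_bot_iff_forall]
  intro x _
  exact h1 x

theorem stF_all (hHH : ∀ r, 1 ≤ r → HHm r) (hExt : ∀ r, 1 ≤ r → ∀ c0, Extm r c0) {T : ℕ → ℕ}
    (hTpos : ∀ t, 1 ≤ T t)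
    (kit : ∀ (G : Type) [Group G] [Finite G], K4p G ∧ K5p G ∧ K6p G ∧ K7p G)
    (hL : ∀ (h : ℕ) (G : Type) [Group G] [Finite G], Group.IsSolvable G → Tp h G → LemLp h G)
    (hR1 : ∀ (G : Type) [Group G] [Finite G], R1m G)
    (hR2 : ∀ (G : Type) [Group G] [Finite G], R2m T G) (r : ℕ) : ∃ N, StF r N := by
  induction r with
  | zero => exact ⟨0, stF_zero⟩
  | succ r ih =>
    obtain ⟨N, hN⟩ := ih
    exact stF_step (r := r + 1) (by omega) hN (hHH _ (by omega)) (hExt _ (by omega)) hTpos kit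
      (hL N) hR1 hR2

/-- The frozen statement from `∀ r, ∃ N, StF r N`. -/
theorem frozen_of_stF (h : ∀ r, ∃ N, StF r N) :
    ∃ f : ℕ → ℕ, ∀ r : ℕ, 1 ≤ r → ∀ (G : Type) [Group G] [Finite G], Group.IsSolvable G →
      (∃ s : ℕ, r < s ∧ ∀ x y : G,
        (fun z : G => z⁻¹ * y⁻¹ * z * y)^[r] x = (fun z : G => z⁻¹ * y⁻¹ * z * y)^[s] x) →
      ∃ n : ℕ, n < f r ∧ ∃ H : ℕ → Subgroup G, H 0 = ⊥ ∧ H n = ⊤ ∧
        ∀ i : ℕ, i < n → (H i).Normal ∧ H i ≤ H (i + 1) ∧
          ∃ c : ℕ, (fun K : Subgroup G => ⁅K, H (i + 1)⁆)^[c] (H (i + 1)) ≤ H i := by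
  choose N hN using h
  refine ⟨fun r => N r + 1, ?_⟩
  intro r hr G _ _ hs hlaw
  refine ⟨N r, Nat.lt_succ_self _, ?_⟩
  exact series_of_resI _ (hN r G hs hlaw)

end Pool.Agent.Work.MP_b44cb1_al
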