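import Pool.Agent.Work.MP_b44cb1_al.Full.Defs

/-!
# Base : simple facts on `Fr`, `Nz`, `Kr`, `Dk` (all proved)
-/

set_option autoImplicit false

namespace Pool.Agent.Work.MP_b44cb1_al

open Subgroup
open scoped commutatorElement

variable {G : Type*} [Group G]

theorem comm_le_fr (p : ℕ) (P : Subgroup G) : ⁅P, P⁆ ≤ Fr p P := le_sup_left

theorem pow_mem_fr {p : ℕ} {P : Subgroup G} {x : G} (hx : x ∈ P) : x ^ p ∈ Fr p P :=
  mem_sup_right (subset_closure ⟨x, hx, rfl⟩)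

theorem comm_mem_fr {p : ℕ} {P : Subgroup G} {x y : G} (hx : x ∈ P) (hy : y ∈ P) :
    ⁅x, y⁆ ∈ Fr p P := comm_le_fr p P (commutator_mem_commutator hx hy)

theorem fr_le (p : ℕ) (P : Subgroup G) : Fr p P ≤ P := by
  refine sup_le ?_ ?_
  · rw [commutator_le]
    intro a ha b hb
    exact mul_mem (mul_mem (mul_mem ha hb) (inv_mem ha)) (inv_mem hb)
  · rw [closure_le]
    rintro _ ⟨x, hx, rfl⟩
    exact pow_mem hx p

theorem fr_mono (p : ℕ) {R P : Subgroup G} (h : R ≤ P) : Fr p R ≤ Fr p P := by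
  refine sup_le ?_ ?_
  · exact (commutator_mono h h).trans (comm_le_fr p P)
  · rw [closure_le]
    rintro _ ⟨x, hx, rfl⟩
    exact pow_mem_fr (h hx)

theorem nz_closure {L : Subgroup G} {s : Set G} (h : ∀ g ∈ L, ∀ x ∈ s, g * x * g⁻¹ ∈ s) :
    Nz L (closure s) := by
  intro g hg d hd
  induction hd using closure_induction with
  | mem x hx => exact subset_closure (h g hg x hx)
  | one => simp
  | mul x y _ _ hx hy =>
    have : g * (x * y) * g⁻¹ = (g * x * g⁻¹) * (g * y * g⁻¹) := by group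
    rw [this]; exact mul_mem hx hy
  | inv x _ hx =>
    have : g * x⁻¹ * g⁻¹ = (g * x * g⁻¹)⁻¹ := by group
    rw [this]; exact inv_mem hx

theorem nz_fr {L P : Subgroup G} (p : ℕ) (h : Nz L P) : Nz L (Fr p P) := by
  refine (nz_comm h h).sup (nz_closure ?_)
  rintro g hg _ ⟨x, hx, rfl⟩
  refine ⟨g * x * g⁻¹, h g hg x hx, ?_⟩
  simp [conj_pow]

theorem nz_cent {L P : Subgroup G} (h : Nz L P) : Nz L (centralizer (P : Set G)) := by
  intro g hg d hd
  rw [mem_centralizer_iff] at *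
  intro x hx
  have h1 := h g⁻¹ (inv_mem hg) x hx
  have h2 := hd _ h1
  simp only [inv_inv] at h2
  calc x * (g * d * g⁻¹) = g * (g⁻¹ * x * g * d) * g⁻¹ := by group
    _ = g * (d * (g⁻¹ * x * g)) * g⁻¹ := by rw [h2]
    _ = g * d * g⁻¹ * x := by group

theorem kr_le (P : ℕ → Subgroup G) (i : ℕ) : Kr P i ≤ P i := inf_le_left

theorem dk_le (P : ℕ → Subgroup G) (j : ℕ) : Dk P j ≤ Gs P j := inf_le_left

theorem dk_comm {P : ℕ → Subgroup G} {j : ℕ} {x y : G} (hx : x ∈ Dk P j) (hy : y ∈ P j) :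
    x * y = y * x := ((mem_centralizer_iff.1 hx.2) y hy).symm

theorem kr_comm {P : ℕ → Subgroup G} {i : ℕ} {x y : G} (hx : x ∈ Kr P i) (hy : y ∈ P (i + 1)) :
    x * y = y * x := ((mem_centralizer_iff.1 hx.2) y hy).symm

theorem gs_mono' (P : ℕ → Subgroup G) {i j : ℕ} (h : i ≤ j) : Gs P i ≤ Gs P j := by
  have : Monotone (Gs P) := monotone_nat_of_le_succ fun n => le_sup_left
  exact this h

theorem le_gs' (P : ℕ → Subgroup G) {i j : ℕ} (h : i < j) : P i ≤ Gs P j := by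
  have h1 : P i ≤ Gs P (i + 1) := le_sup_right
  exact h1.trans (gs_mono' P h)

theorem gs_le_iff (P : ℕ → Subgroup G) (n : ℕ) (X : Subgroup G) :
    Gs P n ≤ X ↔ ∀ i < n, P i ≤ X := by
  constructor
  · intro h i hi
    exact (le_gs' P hi).trans h
  · intro h
    induction n with
    | zero => exact bot_le
    | succ n ih => exact sup_le (ih fun i hi => h i (by omega)) (h n (by omega))

section WT

variable {P : ℕ → Subgroup G} {p : ℕ → ℕ} {n : ℕ}

theorem WTow.gs_nz (T : WTow P p n) {i j : ℕ} (hji : j ≤ i) (hi : i < n) :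
    Nz (Gs P j) (P i) := (T.norm i hi).mono (gs_mono' P hji)

theorem WTow.gs_nz_self (T : WTow P p n) {i : ℕ} (hi : i < n) : Nz (Gs P (i + 1)) (P i) := by
  rw [nz_iff, gs_succ]
  exact sup_le (nz_iff.1 (T.norm i hi)) (nz_iff.1 (nz_self (P i)))

theorem WTow.nz_kr (T : WTow P p n) {i : ℕ} (hi : i + 1 < n) : Nz (Gs P (i + 1)) (Kr P i) :=
  (T.gs_nz_self (by omega)).inf (nz_cent (T.gs_nz le_rfl hi))

theorem WTow.nz_dk (T : WTow P p n) {j : ℕ} (hj : j < n) : Nz (Gs P j) (Dk P j) :=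
  (nz_self _).inf (nz_cent (T.norm j hj))

theorem WTow.cop_le [Finite G] (T : WTow P p n) {i : ℕ} (hi : i < n) {A : Subgroup G}
    (hA : A ≤ Gs P i) : ¬ p i ∣ Nat.card A :=
  fun h => T.cop i hi (h.trans (Subgroup.card_dvd_of_le hA))

theorem WTow.mono (T : WTow P p n) {Q : ℕ → Subgroup G} (hQ : ∀ i < n, Q i ≤ P i)
    [Finite G] (hn : ∀ i < n, Nz (Gs Q i) (Q i)) : WTow Q p n := by
  refine ⟨T.prime, fun i hi => (T.pgrp i hi).to_le (hQ i hi), hn, fun i hi => ?_⟩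
  apply T.cop_le hi
  rw [gs_le_iff]
  exact fun j hj => (hQ j (by omega)).trans (le_gs' P hj)

end WT

end Pool.Agent.Work.MP_b44cb1_al
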