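import Pool.Agent.Work.MP_b44cb1_al.Full.Assembly
import Pool.Agent.Work.MP_b44cb1_al.Full.Kit.KProps
import Pool.Agent.Work.MP_b44cb1_al.Full.Kit.GlauC
import Pool.Agent.Work.MP_b44cb1_al.Full.L.Final
import Pool.Agent.Work.MP_b44cb1_al.Full.R2.BLink
import Pool.Agent.Work.MP_b44cb1_al.Full.Ext.ExtMain
import Pool.Agent.Work.MP_b44cb1_al.Full.R1.Final

/-!
# Blocks : the blocks KIT, L, R2, EXT in the form needed for the assembly
-/

set_option autoImplicit false

namespace Pool.Agent.Work.MP_b44cb1_al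

open Subgroup
open scoped commutatorElement

theorem kit_all (G : Type) [Group G] [Finite G] : K4p G ∧ K5p G ∧ K6p G ∧ K7p G :=
  ⟨k4p, k5p, k6p, k7p⟩

theorem k3p_all (G : Type) [Group G] [Finite G] : R2.K3p G := by
  intro p P F B hp hP hF hPF hBP hBF _ hc x hx h
  exact liftC hp P F B hP hF hPF hBP hBF hc x hx h

theorem l_all (h : ℕ) (G : Type) [Group G] [Finite G] (_ : Group.IsSolvable G) (HT : Tp h G) :
    LemLp h G := lemLp_of_tp HT

theorem r2_all (G : Type) [Group G] [Finite G] : R2m (fun t => t + 4) G := by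
  intro P p n T hp t c h1 hn hX
  exact ⟨R2.r2_link T (k3p_all G) k5p k6p hp h1 t hn hX, R2.r2_dim T k5p k6p hp h1 t hn hX⟩

theorem ext_all (r c0 : ℕ) : Extm r c0 := by
  obtain ⟨t, m, h⟩ := ext_main r c0
  refine ⟨t, m, ?_⟩
  intro G _ _ s hs hrs hlaw P p n T hp hcl c S hc hcm hS hcyc hlink hdim
  exact h G hs ⟨s, hrs, hlaw⟩ P p n T (fun i hi => (hp i hi).1) hcl c hc hcm S hS hcyc hlink hdim

theorem r1_all (G : Type) [Group G] [Finite G] : R1m G := R1.r1m G

/-- The frozen statement from the block HH. -/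
theorem stF_of_hh (hHH : ∀ r, 1 ≤ r → HHm r) (r : ℕ) : ∃ N, StF r N :=
  stF_all hHH (fun r _ c0 => ext_all r c0) (T := fun t => t + 4) (fun t => by omega) kit_all
    l_all r1_all r2_all r

end Pool.Agent.Work.MP_b44cb1_al
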